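import Pool.Agent.helper63.TI.SpecA
import Pool.Agent.helper39.GJ.U11

/-!
# Project ti (MP_3703a7_ag), row BIG: the `l`-adic monodromy theorem in terms of logarithms
-/

set_option autoImplicit false

namespace Pool.Agent.TI

open Polynomial NumberField Pool.Agent.GJ Pool.Agent.TK Pool.Agent.TQ Pool.Agent.TFQ Pool.Agent.TD Pool.Agent.AQ
open Pool.Agent.FJ (VT Om chiO IsFrobO rf rs)
open scoped TensorProduct

noncomputable section

/-- commutators have cyclotomic character one -/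
theorem BIG_chi (hT6 : GJ.T6_stmt) (l : ℕ) [Fact l.Prime] (D : Dat l)
    [∀ i, IsDedekindDomain (CR Om l (D.μ i) (D.a i))] (H : Subgroup (Om ≃+* Om)) (σ : Om ≃+* Om)
    (hσ : σ ∈ ⁅H, H⁆) : chiO l σ = 1 := by
  obtain ⟨_, _, _, _, _, _, _, hm, h1, _⟩ := hT6 l D
  have hinv : ∀ g : Om ≃+* Om, chiO l g * chiO l g⁻¹ = 1 := by
    intro g
    rw [← hm, mul_inv_cancel, h1]
  let K : Subgroup (Om ≃+* Om) :=
    { carrier := {σ | chiO l σ = 1}
      mul_mem' := by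
        intro a b ha hb
        show chiO l (a * b) = 1
        have ha' : chiO l a = 1 := ha
        have hb' : chiO l b = 1 := hb
        rw [hm, ha', hb', mul_one]
      one_mem' := h1
      inv_mem' := by
        intro a ha
        have ha' : chiO l a = 1 := ha
        show chiO l a⁻¹ = 1
        have := hinv a
        rwa [ha', one_mul] at this }
  have hK : ⁅H, H⁆ ≤ K := by
    rw [Subgroup.commutator_le]
    intro a _ b _
    show chiO l (a * b * a⁻¹ * b⁻¹) = 1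
    rw [hm, hm, hm]
    calc chiO l a * chiO l b * chiO l a⁻¹ * chiO l b⁻¹ =
        (chiO l a * chiO l a⁻¹) * (chiO l b * chiO l b⁻¹) := by ring
      _ = 1 := by rw [hinv, hinv, mul_one]
  exact hK hσ

/-- the leading term in degree at least `2 (l - 1)` gives a congruence modulo `l^2` -/
theorem BIG_one (hL1 : GJ.L1_stmt) {l : ℕ} [Fact l.Prime] {V D : Type} [AddCommGroup V] [Module ℚ_[l] V]
    [AddCommGroup D] [Module (ZMod l) D] (P : PM l V D) (hP : P.OK) (k : ℕ) (hk : 2 * (l - 1) ≤ k)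
    (H : Module.End ℚ_[l] V) (S : Module.End (ZMod l) D) (hL : P.Lead k (H - 1) S) (t : V) (ht : t ∈ P.T) :
    ∃ t' ∈ P.T, H t = t + (l : ℚ_[l]) ^ 2 • t' := by
  obtain ⟨_, _, hpi, _, _, _, hll, _⟩ := hL1 l V D P hP
  have hpow : ∀ (j : ℕ) (u : V), u ∈ P.T → (P.pi ^ j) u ∈ P.T := by
    intro j
    induction j with
    | zero => intro u hu; exact hu
    | succ j ih =>
      intro u hu
      rw [pow_succ, Module.End.mul_apply]
      exact ih _ (hpi u hu)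
  obtain ⟨t1, h1, -⟩ := hL.2 ⟨t, ht⟩
  have e : k = (l - 1) + ((l - 1) + (k - 2 * (l - 1))) := by omega
  have h2 : (P.pi ^ (k - 2 * (l - 1))) (t1 : V) ∈ P.T := hpow _ _ t1.2
  obtain ⟨t2, h3⟩ := hll ⟨_, h2⟩
  obtain ⟨t3, h4⟩ := hll t2
  refine ⟨t3, t3.2, ?_⟩
  have h5 : (H - 1) t = (l : ℚ_[l]) ^ 2 • (t3 : V) := by
    rw [show (H - 1) t = (P.pi ^ k) t1 from h1, e, pow_add, pow_add, Module.End.mul_apply,
      Module.End.mul_apply]
    have h3' : (P.pi ^ (l - 1)) ((P.pi ^ (k - 2 * (l - 1))) (t1 : V)) = (l : ℚ_[l]) • (t2 : V) := h3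
    rw [h3', map_smul, h4, smul_smul, sq]
  rw [← h5, LinearMap.sub_apply, Module.End.one_apply]
  abel

/-- BIG -/
theorem BIG (hDD : GJ.DD_stmt) (hR4 : GJ.R4_stmt) (hR5 : GJ.R5_stmt) (hT1 : GJ.T1_stmt) (hT3 : GJ.T3_stmt)
    (hT4 : GJ.T4_stmt) (hT6 : GJ.T6_stmt) (hL1 : GJ.L1_stmt) (hL5 : GJ.L5_stmt) (hL8 : GJ.L8_stmt)
    (hL9 : GJ.L9_stmt) (hU2 : GJ.U2_stmt) (hU3 : GJ.U3_stmt) (hU4 : GJ.U4_stmt) (hU5 : GJ.U5_stmt)
    (hU6 : GJ.U6_stmt) (hU7 : GJ.U7_stmt) (hU8 : GJ.U8_stmt) (hU9 : GJ.U9_stmt) (hV2 : GJ.V2_stmt)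
    (hS2 : GJ.S2g_stmt) (hS3 : GJ.S3_stmt) (hS4 : GJ.S4_stmt) : BIG_stmt := by
  intro l _ hl2 D hD hSep θ hOK M hM hlog Y hY
  have hl0 : (l : Om) ≠ 0 := by exact_mod_cast (Fact.out (p := l.Prime)).ne_zero
  have : NeZero (l : Om) := ⟨hl0⟩
  have : NeZero l := ⟨(Fact.out (p := l.Prime)).ne_zero⟩
  have hded : ∀ i, IsDedekindDomain (CR Om l (D.μ i) (D.a i)) := fun i =>
    hDD Om l (D.n i) (D.μ i) (D.a i)
  obtain ⟨s, hs⟩ := S9_prim l
  have hv : ∀ i (k : Fin (D.n i + 1)), ∃ (v : CR Om l (D.μ i) (D.a i) → ℤ)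
      (lc : CR Om l (D.μ i) (D.a i) → Om) (w0 : Om), IsL k v lc w0 := fun i k =>
    hR4 Om l (D.n i) (D.μ i) (D.a i) k
  choose v lc w0 hv using hv
  have hvi : ∀ i, ∃ vi : CR Om l (D.μ i) (D.a i) → ℤ,
      IsV vi (fun _ => -(l : ℤ)) (-((∑ j, D.μ i j : ℕ) : ℤ)) := fun i =>
    hR5 Om l (D.n i) (D.μ i) (D.a i)
  choose vi hvi using hvi
  have hfin : ∀ i, FiniteDimensional ℚ_[l] (D.VA i) := fun i => by
    obtain ⟨_, b, _⟩ := hOK.free i s hs
    exact Module.Finite.of_basis b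
  have hdim : ∀ i, Module.finrank ℚ_[l] (D.VA i) = D.n i * (l - 1) := fun i => by
    obtain ⟨_, b, _⟩ := hOK.free i s hs
    have := Module.finrank_eq_card_basis b
    rw [Fintype.card_prod, Fintype.card_fin, Fintype.card_fin] at this
    exact this
  have hP : ∀ i, ∃ P : PM l (D.VA i) (Ds l (D.μ i)), IsTP s (v i) P := fun i => by
    have := hfin i
    exact hT3 l (D.n i) (D.μ i) (D.a i) hl2 (hdim i) s hs (v i) (vi i)
      (fun k => (hv i k).val) (hvi i)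
  choose P hP using hP
  have hT1' := fun i => hT1 l (D.n i) (D.μ i) hl2 (U10_mu (D := D) i).1 (U10_mu (D := D) i).2
  choose hfr B hB hB1 hB2 using hT1'
  have hE : ∀ i, ∃ E : D.VA i →ₗ[ℚ_[l]] D.VA i →ₗ[ℚ_[l]] ℚ_[l], (∀ x, E x x = 0) ∧
      (∀ x, (∀ y, E x y = 0) → x = 0) ∧
      (∀ (g : D.VA i →ₗ[ℚ_[l]] D.VA i) (c : ℚ_[l]), c ≠ 0 →
        ExteriorAlgebra.map g (θ i) = c • (θ i) → ∀ x y, E (g x) (g y) = c * E x y) ∧
      ∀ A : D.VA i →ₗ[ℚ_[l]] D.VA i, dX A (θ i) = 0 ↔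
        ∀ x y, E (A x) y + E x (A y) = 0 :=
    fun i => by
      have := hfin i
      exact hL9 ℚ_[l] (D.VA i) (θ i) (hOK.th i).deg (hOK.th i).nondeg
  choose E hE1 hE2 hE3 hE4 using hE
  have hEE : ∀ i, IsE (P i) (E i) := fun i => by
    refine ⟨hE1 i, hE2 i, fun x y => ?_⟩
    rw [(hP i).Z]
    have h := hE3 i (D.zA i s) 1 one_ne_zero (by
      rw [one_smul]
      exact (hOK.th i).zeta s) x y
    rw [one_mul] at h
    exact h
  have hchi : ∀ (σ : Om ≃+* Om) (h : D.Fix σ) i x y,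
      E i (Dat.galA h i x) (Dat.galA h i y) = chiO l σ * E i x y := fun σ h i x y =>
    hE3 i (Dat.galA h i) (chiO l σ) (S9_chi l σ) ((hOK.th i).tate σ h) x y
  have hHS : ∀ i, HasSym (P i) (E i) (B i) := by
    intro i S hS
    obtain ⟨κ, h1, h2⟩ := hB2 i S hS
    obtain ⟨σ, m, κ', F, hF, -, -, c, hc⟩ := U10_surj hU2 hU3 hU5 hl2 hs hD hB1 i κ h1
    obtain ⟨σ', hσ, hσs, hL⟩ := U11_real D hT4 hU2 hl2 s hs v P hP vi lc w0 hv hvi F ⟨σ, hF⟩
    have h3 : F i + c • (1 : Module.End (ZMod l) (Ds l (D.μ i))) = S := S9_AK_unique hc h2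
    have hZ : ∀ (N : ℕ) (x y : D.VA i), E i (((P i).Z ^ N) x) (((P i).Z ^ N) y) = E i x y := by
      intro N
      induction N with
      | zero => intro x y; rfl
      | succ N ih =>
        intro x y
        rw [pow_succ, Module.End.mul_apply, Module.End.mul_apply, ih, (hEE i).Z]
    refine ⟨Dat.galA hσ i * (P i).Z ^ (-c).val, chiO l σ', ?_, fun x y => ?_, ?_⟩
    · obtain ⟨_, _, _, _, _, _, _, _, _, h10, _⟩ := hT6 l D
      exact h10 σ' s hs hσs.2
    · rw [Module.End.mul_apply, Module.End.mul_apply, hchi, hZ]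
    · have h4 := hU9 l (D.VA i) (Ds l (D.μ i)) (P i) (hP i).ok (-c).val (Dat.galA hσ i) (F i) (hL i)
      have h5 : F i - (((-c).val : ℕ) : ZMod l) • (1 : Module.End (ZMod l) (Ds l (D.μ i))) = S := by
        rw [← h3, ZMod.natCast_zmod_val]
        refine LinearMap.ext fun x => ?_
        show F i x - (-c) • x = F i x + c • x
        rw [neg_smul, sub_neg_eq_add]
      rwa [h5] at h4
  have hCEB : ∀ i, CompEB (P i) (E i) (B i) := fun i =>
    hL5 l (D.VA i) (Ds l (D.μ i)) (P i) (E i) (B i) hl2 (hP i).ok (hEE i) (hB i) (hHS i)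
  obtain ⟨k1, hk1⟩ := U11_lead D hT1 hT4 hT6 hU2 hU3 hU4 hU5 hU6 hU7 hU8 hV2 hS2 hS3 hl2 hD hSep
    s hs v P hP vi lc w0 hv hvi B hB hB1 hB2
  have hl3 : 2 ≤ l - 1 := by
    have := (Fact.out (p := l.Prime)).two_le
    omega
  exact hS4 l D.k (fun i => D.VA i) (fun i => Ds l (D.μ i)) P E B hl2
    (fun i => (hP i).ok) hEE hB hCEB M hM (max k1 (2 * (l - 1)))
    (fun k S hk hS => by
      obtain ⟨σ, h, hσ, hL⟩ := hk1 k S ((le_max_left _ _).trans hk) hS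
      have hk2 : 2 * (l - 1) ≤ k := (le_max_right _ _).trans hk
      have hx1 : chiO l σ = 1 := BIG_chi hT6 l D _ σ hσ
      have hroot := U11_comm _ hσ
      have hA := fun i => hL8 l (D.VA i) (Ds l (D.μ i)) (P i) (E i) hl2 (hP i).ok k
        (Dat.galA h i) (S i) (by omega) (hL i) (fun x y => by rw [hchi, hx1, one_mul])
      choose A hA1 hA2 hA3 using hA
      refine ⟨A, hlog σ h hroot A fun i => ?_, fun i => ⟨hA1 i, hA2 i⟩⟩
      refine ⟨fun t ht => ?_, fun j t ht => ?_⟩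
      · obtain ⟨t', ht', e⟩ := BIG_one hL1 (P i) (hP i).ok k hk2 (Dat.galA h i) (S i) (hL i) t
          (((hP i).mem t).2 ht)
        exact ⟨t', ((hP i).mem t').1 ht', e⟩
      · obtain ⟨Bj, e1, e2⟩ := hA3 i j
        obtain ⟨t', e3⟩ := e2 ⟨t, ((hP i).mem t).2 ht⟩
        refine ⟨-(t' : D.VA i), ((hP i).mem _).1 ((P i).T.neg_mem t'.2), ?_⟩
        have e4 : Bj t = A i t - (l : ℚ_[l]) ^ j • (t' : D.VA i) := by
          rw [← e3]
          abel
        show ((Dat.galA h i) ^ l ^ j) t = _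
        rw [e1, LinearMap.add_apply, LinearMap.smul_apply, e4, Module.End.one_apply, smul_sub, smul_smul,
          smul_neg, sq, add_assoc, ← sub_eq_add_neg])
    Y (fun i => by
      refine ⟨?_, ?_, ?_⟩
      · rw [(hP i).Z]
        exact (hY i).comm s
      · exact (hE4 i (Y i)).1 (hY i).kill
      · intro j
        have h : LinearMap.trace ℚ_[l] (D.VA i) (D.zA i (s ^ j) ∘ₗ Y i) = 0 := (hY i).tr (s ^ j)
        rw [← S9_zpow hT6 l D i s j] at h
        rw [(hP i).Z]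
        exact h)

end

end Pool.Agent.TI
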