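import Pool.Agent.helper63.TI.SpecG

/-!
# Project ti, row PIJ: the same place for the Jacobi curves
-/

set_option autoImplicit false

namespace Pool.Agent.TI

open Polynomial NumberField Pool.Agent.GJ Pool.Agent.TK Pool.Agent.TQ Pool.Agent.TFQ Pool.Agent.TD
open Pool.Agent.FJ (VT Om chiO IsFrobO rf rs)

noncomputable section

theorem PIJ : PIJ_stmt := by
  intro l n _ a F _ _ _ α O e χ σ A h
  refine ⟨h.two, h.eq, h.pos, h.ord, h.tei, h.frob, fixJ σ, h.zeta, ?_, ?_⟩
  · intro j
    fin_cases j
    · exact ⟨0, rfl, (map_zero (rs O)).trans (map_zero e).symm⟩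
    · exact ⟨1, rfl, (map_one (rs O)).trans (map_one e).symm⟩
  · intro i j hij
    fin_cases i <;> fin_cases j
    · rfl
    · exact absurd hij zero_ne_one
    · exact absurd hij one_ne_zero
    · rfl

end

end Pool.Agent.TI
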